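import Pool.Agent.Helper36.CV.StmtsK

set_option autoImplicit false

namespace Pool.Agent.Helper36.CV

open Filter Topology Pointwise

theorem k8_isOpen_Om2 (L0 : ℝ) : IsOpen (Om2 L0) := by
  have h1 : IsOpen {l : ℂ | L0 < ‖l‖} := isOpen_lt continuous_const continuous_norm
  have h2 : IsOpen {l : ℂ | ‖l‖ < 2 * l.re} :=
    isOpen_lt continuous_norm (continuous_const.mul Complex.continuous_re)
  exact h1.inter h2

theorem k8_isOpen_Dom (L0 : ℝ) : IsOpen (Dom L0) := by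
  have h1 : IsOpen {p : ℂ × ℂ | p.1 ∈ Om2 L0} := (k8_isOpen_Om2 L0).preimage continuous_fst
  have h2 : IsOpen {p : ℂ × ℂ | ‖p.2‖ < 2} := isOpen_lt continuous_snd.norm continuous_const
  exact h1.inter h2

theorem k8_diff {L0 : ℝ} {E : ℂ → ℂ → ℂ}
    (hE : DifferentiableOn ℂ (fun p : ℂ × ℂ => E p.1 p.2) (Dom L0)) {l z : ℂ} (hl : l ∈ Om2 L0)
    (hz : ‖z‖ < 2) : DifferentiableAt ℂ (E l) z := by
  have h1 : DifferentiableAt ℂ (fun p : ℂ × ℂ => E p.1 p.2) (l, z) :=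
    (hE (l, z) ⟨hl, hz⟩).differentiableAt ((k8_isOpen_Dom L0).mem_nhds ⟨hl, hz⟩)
  have h2 : DifferentiableAt ℂ (fun z : ℂ => ((l, z) : ℂ × ℂ)) z :=
    (differentiableAt_const l).prodMk differentiableAt_id
  exact DifferentiableAt.comp z (g := fun p : ℂ × ℂ => E p.1 p.2) h1 h2

theorem k8_main {c L0 : ℝ} {k : ℕ} {o s t : ℝ} {u E : ℂ → ℂ → ℂ} (hS : Sta c L0 k o s t u E)
    {l z : ℂ} (hl : l ∈ Om2 L0) (hl0 : l ≠ 0) (hz : ‖z‖ < 2) :
    ‖(E l z - E l 0) / deriv (E l) 0 - (z - t * o * z ^ 2 / (2 * l))‖ ≤ c / ‖l‖ ^ 2 * ‖z‖ := by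
  set D := deriv (E l) 0 with hD
  set f : ℂ → ℂ := fun z => E l z / D - (z - t * o * z ^ 2 / (2 * l)) with hf
  have hder : ∀ x ∈ Metric.ball (0 : ℂ) 2, HasDerivWithinAt f
      (deriv (E l) x / D - (1 - t * o * x / l)) (Metric.ball (0 : ℂ) 2) x := by
    intro x hx
    have hx2 : ‖x‖ < 2 := by simpa using hx
    have h1 : HasDerivAt (E l) (deriv (E l) x) x :=
      (k8_diff hS.an_E hl hx2).hasDerivAt
    have h2 : HasDerivAt (fun z : ℂ => (t : ℂ) * o * z ^ 2 / (2 * l)) (t * o * x / l) x := by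
      have h3 := ((hasDerivAt_pow 2 x).const_mul ((t : ℂ) * o)).div_const (2 * l)
      refine h3.congr_deriv ?_
      field_simp
      ring
    have h4 := (h1.div_const D).sub ((hasDerivAt_id x).sub h2)
    exact h4.hasDerivWithinAt
  have hb : ∀ x ∈ Metric.ball (0 : ℂ) 2,
      ‖deriv (E l) x / D - (1 - t * o * x / l)‖ ≤ c / ‖l‖ ^ 2 := by
    intro x hx
    have hx2 : ‖x‖ < 2 := by simpa using hx
    exact hS.dist l x ⟨hl, hx2⟩
  have h5 := (convex_ball (0 : ℂ) 2).norm_image_sub_le_of_norm_hasDerivWithin_le hder hb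
    (Metric.mem_ball_self (by norm_num : (0 : ℝ) < 2)) (show z ∈ Metric.ball (0 : ℂ) 2 by simpa using hz)
  have h6 : f z - f 0 = (E l z - E l 0) / D - (z - t * o * z ^ 2 / (2 * l)) := by
    simp only [hf]
    ring
  rw [h6, sub_zero] at h5
  exact h5

/-- first formula -/
theorem k8_one {o t e a b zh zl d1 d2 : ℂ} {q c c' : ℝ} (ho : o ^ 2 = 1) (hon : ‖o‖ = 1)
    (ht : ‖t‖ ≤ 1) (he : ‖e‖ = q) (hq : q ≤ 1) (hc' : 0 ≤ c') (hzh : ‖zh‖ ≤ 3 / 4)
    (hzl : ‖zl‖ ≤ 3 / 4)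
    (ha : zh = o / 2 * (1 + e / 2 + t * e / 2) + a) (hb : zl = -(o / 2 * (1 + e / 2 - t * e / 2)) + b)
    (han : ‖a‖ ≤ c' * q ^ 2) (hbn : ‖b‖ ≤ c' * q ^ 2) (hd1 : ‖d1‖ ≤ c * q ^ 2)
    (hd2 : ‖d2‖ ≤ c * q ^ 2) :
    ‖o * ((zh - t * o * zh ^ 2 * e / 2 + d1) - (zl - t * o * zl ^ 2 * e / 2 + d2)) - (1 + e / 2)‖
      ≤ (2 * c' + 3 / 8 + 3 * c' / 2 + 2 * c) * q ^ 2 := by
  have hq0 : 0 ≤ q := by rw [← he]; exact norm_nonneg _
  have e1 : o * ((zh - t * o * zh ^ 2 * e / 2 + d1) - (zl - t * o * zl ^ 2 * e / 2 + d2)) - (1 + e / 2)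
      = o * (a - b) - (t * e / 2) * ((zh - zl) * (o / 2 * t * e + (a + b))) + o * (d1 - d2) := by
    have h1 : zh + zl = o / 2 * t * e + (a + b) := by rw [ha, hb]; ring
    have h2 : zh - zl = o + o * e / 2 + (a - b) := by rw [ha, hb]; ring
    rw [← h1]
    linear_combination o * h2 + (1 + e / 2 - t * e / 2 * (zh ^ 2 - zl ^ 2)) * ho
  rw [e1]
  have n1 : ‖o * (a - b)‖ ≤ 2 * c' * q ^ 2 := by
    rw [norm_mul, hon, one_mul]
    refine (norm_sub_le _ _).trans ?_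
    linarith
  have n2 : ‖o * (d1 - d2)‖ ≤ 2 * c * q ^ 2 := by
    rw [norm_mul, hon, one_mul]
    refine (norm_sub_le _ _).trans ?_
    linarith
  have n3 : ‖t * e / 2‖ ≤ q / 2 := by
    rw [norm_div, norm_mul, he]
    have h2 : ‖(2 : ℂ)‖ = 2 := by norm_num
    rw [h2]
    nlinarith
  have n4 : ‖zh - zl‖ ≤ 3 / 2 := (norm_sub_le _ _).trans (by linarith)
  have n5 : ‖o / 2 * t * e + (a + b)‖ ≤ q / 2 + 2 * c' * q := by
    refine (norm_add_le _ _).trans ?_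
    have h1 : ‖o / 2 * t * e‖ ≤ q / 2 := by
      rw [norm_mul, norm_mul, norm_div, hon, he]
      have h2 : ‖(2 : ℂ)‖ = 2 := by norm_num
      rw [h2]
      nlinarith [norm_nonneg t]
    have h2 : ‖a + b‖ ≤ 2 * c' * q := by
      refine (norm_add_le _ _).trans ?_
      have : q ^ 2 ≤ q := by nlinarith
      nlinarith
    linarith
  have n6 : ‖(t * e / 2) * ((zh - zl) * (o / 2 * t * e + (a + b)))‖
      ≤ q / 2 * (3 / 2 * (q / 2 + 2 * c' * q)) := by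
    rw [norm_mul, norm_mul]
    exact mul_le_mul n3 (mul_le_mul n4 n5 (norm_nonneg _) (by norm_num))
      (by positivity) (by linarith)
  refine (norm_add_le _ _).trans ?_
  have n7 := norm_sub_le (o * (a - b)) ((t * e / 2) * ((zh - zl) * (o / 2 * t * e + (a + b))))
  nlinarith

/-- second formula -/
theorem k8_two {o t e a b zh zl d1 d2 : ℂ} {q c c' : ℝ} (ho : o ^ 2 = 1) (hon : ‖o‖ = 1)
    (ht : ‖t‖ ≤ 1) (he : ‖e‖ = q) (hq : q ≤ 1) (hc' : 0 ≤ c') (hzh : ‖zh‖ ≤ 3 / 4)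
    (hzl : ‖zl‖ ≤ 3 / 4)
    (ha : zh = o / 2 * (1 + e / 2 + t * e / 2) + a) (hb : zl = -(o / 2 * (1 + e / 2 - t * e / 2)) + b)
    (han : ‖a‖ ≤ c' * q ^ 2) (hbn : ‖b‖ ≤ c' * q ^ 2) (hd1 : ‖d1‖ ≤ c * q ^ 2)
    (hd2 : ‖d2‖ ≤ c * q ^ 2) :
    ‖o / 2 * ((zh - t * o * zh ^ 2 * e / 2 + d1) + (zl - t * o * zl ^ 2 * e / 2 + d2)) - t * e / 8‖
      ≤ (c' + 5 / 8 * (1 / 2 + c') + c) * q ^ 2 := by
  have hq0 : 0 ≤ q := by rw [← he]; exact norm_nonneg _
  have hh2 : ‖(2 : ℂ)‖ = 2 := by norm_num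
  have hh4 : ‖(4 : ℂ)‖ = 4 := by norm_num
  have e1 : o / 2 * ((zh - t * o * zh ^ 2 * e / 2 + d1) + (zl - t * o * zl ^ 2 * e / 2 + d2))
      - t * e / 8
      = o / 2 * (a + b) - (t * e / 4) * ((zh - o / 2) * (zh + o / 2) + (zl + o / 2) * (zl - o / 2))
        + o / 2 * (d1 + d2) := by
    have h1 : zh + zl = o / 2 * t * e + (a + b) := by rw [ha, hb]; ring
    linear_combination o / 2 * h1 + (t * e / 4 - t * e / 4 * (zh ^ 2 + zl ^ 2) - t * e / 8) * ho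
  rw [e1]
  have n1 : ‖o / 2 * (a + b)‖ ≤ c' * q ^ 2 := by
    rw [norm_mul, norm_div, hon, hh2]
    have := norm_add_le a b
    linarith
  have n2 : ‖o / 2 * (d1 + d2)‖ ≤ c * q ^ 2 := by
    rw [norm_mul, norm_div, hon, hh2]
    have := norm_add_le d1 d2
    linarith
  have n3 : ‖t * e / 4‖ ≤ q / 4 := by
    rw [norm_div, norm_mul, he, hh4]
    nlinarith
  have hqq : q ^ 2 ≤ q := by nlinarith
  have n4 : ‖zh - o / 2‖ ≤ (1 / 2 + c') * q := by
    have h1 : zh - o / 2 = o / 4 * e + (o / 4 * t * e + a) := by rw [ha]; ring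
    rw [h1]
    refine (norm_add_le _ _).trans ?_
    have h2 := norm_add_le (o / 4 * t * e) a
    have h3 : ‖o / 4 * e‖ = q / 4 := by rw [norm_mul, norm_div, hon, hh4, he]; ring
    have h4 : ‖o / 4 * t * e‖ ≤ q / 4 := by
      rw [norm_mul, norm_mul, norm_div, hon, hh4, he]
      nlinarith [norm_nonneg t]
    nlinarith
  have n5 : ‖zl + o / 2‖ ≤ (1 / 2 + c') * q := by
    have h1 : zl + o / 2 = -(o / 4 * e) + (o / 4 * t * e + b) := by rw [hb]; ring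
    rw [h1]
    refine (norm_add_le _ _).trans ?_
    have h2 := norm_add_le (o / 4 * t * e) b
    have h3 : ‖-(o / 4 * e)‖ = q / 4 := by rw [norm_neg, norm_mul, norm_div, hon, hh4, he]; ring
    have h4 : ‖o / 4 * t * e‖ ≤ q / 4 := by
      rw [norm_mul, norm_mul, norm_div, hon, hh4, he]
      nlinarith [norm_nonneg t]
    nlinarith
  have ho2 : ‖o / 2‖ = 1 / 2 := by rw [norm_div, hon, hh2]
  have n6 : ‖zh + o / 2‖ ≤ 5 / 4 := (norm_add_le _ _).trans (by linarith)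
  have n7 : ‖zl - o / 2‖ ≤ 5 / 4 := (norm_sub_le _ _).trans (by linarith)
  have n8 : ‖(zh - o / 2) * (zh + o / 2) + (zl + o / 2) * (zl - o / 2)‖
      ≤ (1 / 2 + c') * q * (5 / 4) + (1 / 2 + c') * q * (5 / 4) := by
    refine (norm_add_le _ _).trans (add_le_add ?_ ?_)
    · rw [norm_mul]
      exact mul_le_mul n4 n6 (norm_nonneg _) (by positivity)
    · rw [norm_mul]
      exact mul_le_mul n5 n7 (norm_nonneg _) (by positivity)
  have n9 : ‖(t * e / 4) * ((zh - o / 2) * (zh + o / 2) + (zl + o / 2) * (zl - o / 2))‖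
      ≤ q / 4 * ((1 / 2 + c') * q * (5 / 4) + (1 / 2 + c') * q * (5 / 4)) := by
    rw [norm_mul]
    exact mul_le_mul n3 n8 (norm_nonneg _) (by linarith)
  refine (norm_add_le _ _).trans ?_
  have n10 := norm_sub_le (o / 2 * (a + b))
    ((t * e / 4) * ((zh - o / 2) * (zh + o / 2) + (zl + o / 2) * (zl - o / 2)))
  nlinarith

/-- third and fourth formula -/
theorem k8_three {o s r t e x u d3 d4 : ℂ} {q c : ℝ} (hs : s ^ 2 = 1)
    (hon : ‖o‖ = 1) (hsn : ‖s‖ = 1) (hrn : ‖r‖ = 1)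
    (ht : ‖t‖ ≤ 1) (he : ‖e‖ = q) (hq : q ≤ 1) (hc : 0 ≤ c) (hu : ‖u‖ ≤ 11 / 10)
    (hx : x = 1 - t * o * r * e / 2 + d3) (hd3 : ‖d3‖ ≤ c * q ^ 2)
    (hud : u = t * s * o / 2 + d4) (hd4 : ‖d4‖ ≤ c * q) :
    ‖x * (r * s * e / 2) * (1 - s * r * u * e) - r * s * e / 2 * (1 - t * o * r * e)‖
      ≤ (1 + 2 * c) * q ^ 3 := by
  have hq0 : 0 ≤ q := by rw [← he]; exact norm_nonneg _
  have hh2 : ‖(2 : ℂ)‖ = 2 := by norm_num
  have e1 : x * (r * s * e / 2) * (1 - s * r * u * e) - r * s * e / 2 * (1 - t * o * r * e)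
      = r * s * e / 2 * ((t * o * r * e / 2) ^ 2 - s * r * d4 * e * (1 - t * o * r * e / 2)
        + d3 * (1 - s * r * u * e)) := by
    rw [hx, hud]
    linear_combination (r * s * e / 2) * (1 - t * o * r * e / 2) * (-(r * t * o * e / 2)) * hs
  rw [e1, norm_mul]
  have n0 : ‖r * s * e / 2‖ = q / 2 := by
    rw [norm_div, norm_mul, norm_mul, hrn, hsn, he, hh2]
    ring
  have n1 : ‖t * o * r * e / 2‖ ≤ q / 2 := by
    rw [norm_div, norm_mul, norm_mul, norm_mul, hon, hrn, he, hh2]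
    nlinarith [norm_nonneg t]
  have n2 : ‖(t * o * r * e / 2) ^ 2‖ ≤ q ^ 2 / 4 := by
    rw [norm_pow]
    nlinarith [norm_nonneg (t * o * r * e / 2)]
  have n3 : ‖1 - t * o * r * e / 2‖ ≤ 3 / 2 := by
    refine (norm_sub_le _ _).trans ?_
    rw [norm_one]
    linarith
  have n4 : ‖s * r * d4 * e‖ ≤ c * q * q := by
    rw [norm_mul, norm_mul, norm_mul, hsn, hrn, he]
    nlinarith [norm_nonneg d4]
  have n5 : ‖s * r * d4 * e * (1 - t * o * r * e / 2)‖ ≤ c * q * q * (3 / 2) := by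
    rw [norm_mul]
    exact mul_le_mul n4 n3 (norm_nonneg _) (by positivity)
  have n6 : ‖1 - s * r * u * e‖ ≤ 21 / 10 := by
    refine (norm_sub_le _ _).trans ?_
    rw [norm_one, norm_mul, norm_mul, norm_mul, hsn, hrn, he]
    nlinarith [norm_nonneg u]
  have n7 : ‖d3 * (1 - s * r * u * e)‖ ≤ c * q ^ 2 * (21 / 10) := by
    rw [norm_mul]
    exact mul_le_mul hd3 n6 (norm_nonneg _) (by positivity)
  have n8 := norm_add_le ((t * o * r * e / 2) ^ 2 - s * r * d4 * e * (1 - t * o * r * e / 2))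
    (d3 * (1 - s * r * u * e))
  have n9 := norm_sub_le ((t * o * r * e / 2) ^ 2) (s * r * d4 * e * (1 - t * o * r * e / 2))
  rw [n0]
  have n10 : ‖(t * o * r * e / 2) ^ 2 - s * r * d4 * e * (1 - t * o * r * e / 2)
        + d3 * (1 - s * r * u * e)‖ ≤ (1 / 4 + 3 / 2 * c + 21 / 10 * c) * q ^ 2 := by
    nlinarith
  have n11 : q / 2 * ‖(t * o * r * e / 2) ^ 2 - s * r * d4 * e * (1 - t * o * r * e / 2)
        + d3 * (1 - s * r * u * e)‖ ≤ q / 2 * ((1 / 4 + 3 / 2 * c + 21 / 10 * c) * q ^ 2) :=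
    mul_le_mul_of_nonneg_left n10 (by linarith)
  have n12 : 0 ≤ q ^ 3 := by positivity
  nlinarith

/-- sixth formula -/
theorem k8_six {o s t e z u a d δ : ℂ} {q c : ℝ} (ho : o ^ 2 = 1) (hs : s ^ 2 = 1)
    (hon : ‖o‖ = 1) (hsn : ‖s‖ = 1) (ht : ‖t‖ ≤ 1) (he : ‖e‖ = q) (hq : q ≤ 1)
    (hz : ‖z‖ ≤ 4 * q) (hza : z = s * u * e + a) (ha : ‖a‖ ≤ c * q ^ 2)
    (hud : u = t * s * o / 2 + d) (hd : ‖d‖ ≤ c * q) (hδ : ‖δ‖ ≤ c * q ^ 2) :
    ‖o * (z - t * o * z ^ 2 * e / 2 + δ) - t * e / 2‖ ≤ (8 + 3 * c) * q ^ 2 := by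
  have hq0 : 0 ≤ q := by rw [← he]; exact norm_nonneg _
  have hh2 : ‖(2 : ℂ)‖ = 2 := by norm_num
  have e1 : o * (z - t * o * z ^ 2 * e / 2 + δ) - t * e / 2
      = o * (s * d * e) + o * a - t * z ^ 2 * e / 2 + o * δ := by
    have h1 : z = t * o * e / 2 + s * d * e + a := by
      rw [hza, hud]
      linear_combination (t * o * e / 2) * hs
    linear_combination o * h1 + (t * e / 2 - t * e / 2 * z ^ 2) * ho
  rw [e1]
  have n1 : ‖o * (s * d * e)‖ ≤ c * q ^ 2 := by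
    rw [norm_mul, norm_mul, norm_mul, hon, hsn, he]
    nlinarith
  have n2 : ‖o * a‖ ≤ c * q ^ 2 := by
    rw [norm_mul, hon, one_mul]
    exact ha
  have n3 : ‖o * δ‖ ≤ c * q ^ 2 := by
    rw [norm_mul, hon, one_mul]
    exact hδ
  have n4 : ‖z ^ 2‖ ≤ 16 * q ^ 2 := by
    rw [norm_pow]
    nlinarith [norm_nonneg z]
  have n5 : ‖t * z ^ 2 * e / 2‖ ≤ 8 * q ^ 2 := by
    rw [norm_div, norm_mul, norm_mul, he, hh2]
    have h1 : ‖t‖ * ‖z ^ 2‖ ≤ 16 * q ^ 2 := by nlinarith [norm_nonneg (z ^ 2), norm_nonneg t]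
    have h2 : ‖t‖ * ‖z ^ 2‖ * q ≤ 16 * q ^ 2 := by
      have : 0 ≤ ‖t‖ * ‖z ^ 2‖ := by positivity
      nlinarith
    linarith
  have n6 := norm_add_le (o * (s * d * e) + o * a - t * z ^ 2 * e / 2) (o * δ)
  have n7 := norm_sub_le (o * (s * d * e) + o * a) (t * z ^ 2 * e / 2)
  have n8 := norm_add_le (o * (s * d * e)) (o * a)
  linarith

theorem k8_sq {o : ℝ} (h : o = 1 ∨ o = -1) : ((o : ℂ)) ^ 2 = 1 ∧ ‖(o : ℂ)‖ = 1 := by
  rcases h with rfl | rfl
  · norm_num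
  · norm_num

theorem k8_bd {x y : ℝ} {c2 q : ℝ} {n : ℕ} {l : ℂ} (hq : q = ‖l‖⁻¹) (h : x ≤ y * q ^ n)
    (hy : y ≤ c2) : x ≤ c2 / ‖l‖ ^ n := by
  have h1 : c2 / ‖l‖ ^ n = c2 * q ^ n := by
    rw [hq, inv_pow, div_eq_mul_inv]
  rw [h1]
  have h2 : 0 ≤ q ^ n := by
    rw [hq]
    positivity
  exact h.trans (mul_le_mul_of_nonneg_right hy h2)

theorem st_K8 : ST_K8 := by
  intro c c' hc hc'
  refine ⟨10 * c + 10 * c' + 10, 4, by linarith, by norm_num, ?_⟩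
  intro L0 hL0 T U l hl w
  have hS := T.sta w
  obtain ⟨ho, hon⟩ := k8_sq hS.oo
  obtain ⟨hs, hsn⟩ := k8_sq hS.ss
  have ht : ‖((ty w : ℝ) : ℂ)‖ ≤ 1 := by
    rcases hS.tt with h | h | h
    · rw [h]; norm_num
    · rw [h]; norm_num
    · rw [h]; norm_num
  have hl4 : 4 < ‖l‖ := lt_of_le_of_lt hL0 hl.1
  have hl0 : l ≠ 0 := by
    intro h
    rw [h, norm_zero] at hl4
    linarith
  set q : ℝ := ‖l‖⁻¹ with hq
  set e : ℂ := l⁻¹ with he
  have heq : ‖e‖ = q := norm_inv l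
  have hq0 : 0 < q := inv_pos.2 (by linarith)
  have hq4 : q ≤ 1 / 4 := by
    rw [hq, inv_le_comm₀ (by linarith) (by norm_num)]
    norm_num
    linarith
  have hq1 : q ≤ 1 := by linarith
  set D := deriv (T.EE w l) 0 with hD
  set o : ℂ := ((T.oo w : ℝ) : ℂ) with hodef
  set s : ℂ := ((T.ss w : ℝ) : ℂ) with hsdef
  set t : ℂ := ((ty w : ℝ) : ℂ) with htdef
  have ho0 : o ≠ 0 := by
    intro h
    rw [h, norm_zero] at hon
    exact zero_ne_one hon
  have hoi : o⁻¹ = o := inv_eq_of_mul_eq_one_right (by rw [← sq]; exact ho)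
  have hDne : D ≠ 0 := hS.dE0 l 0 ⟨hl, by simp⟩
  have key : ∀ z : ℂ, ‖z‖ < 2 →
      ‖(T.EE w l z - T.EE w l 0) / D - (z - t * o * z ^ 2 * e / 2)‖ ≤ c * q ^ 2 * ‖z‖ := by
    intro z hz
    have h1 := k8_main hS hl hl0 hz
    have h2 : t * o * z ^ 2 / (2 * l) = t * o * z ^ 2 * e / 2 := by
      rw [he]
      field_simp
    have h3 : c / ‖l‖ ^ 2 = c * q ^ 2 := by rw [hq, inv_pow, div_eq_mul_inv]
    rw [h2, h3] at h1
    exact h1
  have hzh := U.nh w l hl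
  have hzl := U.nl w l hl
  set zh := U.zh w l with hzhd
  set zl := U.zl w l with hzld
  set d1 : ℂ := (T.EE w l zh - T.EE w l 0) / D - (zh - t * o * zh ^ 2 * e / 2) with hd1
  set d2 : ℂ := (T.EE w l zl - T.EE w l 0) / D - (zl - t * o * zl ^ 2 * e / 2) with hd2
  have hcq : 0 ≤ c * q ^ 2 := by positivity
  have hd1n : ‖d1‖ ≤ c * q ^ 2 := by
    refine (key zh (by linarith)).trans ?_
    nlinarith
  have hd2n : ‖d2‖ ≤ c * q ^ 2 := by
    refine (key zl (by linarith)).trans ?_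
    nlinarith
  set a : ℂ := zh - o / 2 * (1 + e / 2 + t * e / 2) with ha
  set b : ℂ := zl + o / 2 * (1 + e / 2 - t * e / 2) with hb
  have hcl : c' / ‖l‖ ^ 2 = c' * q ^ 2 := by rw [hq, inv_pow, div_eq_mul_inv]
  have han : ‖a‖ ≤ c' * q ^ 2 := by
    have h1 := U.ah w l hl
    rw [hcl] at h1
    change ‖zh - o / 2 * (1 + 1 / (2 * l) + t / (2 * l))‖ ≤ _ at h1
    have h2 : zh - o / 2 * (1 + 1 / (2 * l) + t / (2 * l)) = a := by
      rw [ha, he]
      field_simp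
    rw [h2] at h1
    exact h1
  have hbn : ‖b‖ ≤ c' * q ^ 2 := by
    have h1 := U.al w l hl
    rw [hcl] at h1
    change ‖zl + o / 2 * (1 + 1 / (2 * l) - t / (2 * l))‖ ≤ _ at h1
    have h2 : zl + o / 2 * (1 + 1 / (2 * l) - t / (2 * l)) = b := by
      rw [hb, he]
      field_simp
    rw [h2] at h1
    exact h1
  have haz : zh = o / 2 * (1 + e / 2 + t * e / 2) + a := by rw [ha]; ring
  have hbz : zl = -(o / 2 * (1 + e / 2 - t * e / 2)) + b := by rw [hb]; ring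
  -- children
  have third : ∀ (i : Fin 3) (r : ℝ), (r = 1 ∨ r = -1) →
      ChB c L0 (T.kk w) (T.oo w) (T.ss w) r (T.uu w) (T.EE w) (T.zz i w) →
      ‖deriv (T.EE (ch i w) l) 0 / D - (r : ℂ) * s * e / 2 * (1 - t * o * r * e)‖
        ≤ (1 + 3 * c) * q ^ 3 := by
    intro i r hr hB
    obtain ⟨hr2, hrn⟩ := k8_sq hr
    have h1 := hB.d1 l hl
    have h2 : T.EE (ch i w) l = fun z => T.EE w l (T.zz i w l z) := by
      rw [T.E0 i w]
    rw [← h2] at h1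
    have h3 := hS.dist l (r / 2) ⟨hl, by
      rw [norm_div, hrn]
      norm_num⟩
    have h4 := hS.u1 l 0 ⟨hl, by simp⟩
    have h5 := hS.ub l 0 ⟨hl, by simp⟩
    have hc2 : c / ‖l‖ ^ 2 = c * q ^ 2 := by rw [hq, inv_pow, div_eq_mul_inv]
    have hc3 : c / ‖l‖ ^ 3 = c * q ^ 3 := by rw [hq, inv_pow, div_eq_mul_inv]
    have hc1 : c / ‖l‖ = c * q := by rw [hq, div_eq_mul_inv]
    rw [hc3] at h1
    rw [hc2] at h3
    rw [hc1] at h4
    have h6 := k8_three (o := o) (s := s) (r := (r : ℂ)) (t := t) (e := e)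
      (x := deriv (T.EE w l) (r / 2) / D) (u := T.uu w l 0)
      (d3 := deriv (T.EE w l) (r / 2) / D - (1 - t * o * (r / 2) / l))
      (d4 := T.uu w l 0 - t * s * o / 2) (c := c) hs hon hsn hrn ht heq hq1 (by linarith) h5
      (by rw [he]; field_simp; ring) h3 (by ring) h4
    have h7 : deriv (T.EE (ch i w) l) 0 / D - (r : ℂ) * s * e / 2 * (1 - t * o * r * e)
        = (deriv (T.EE (ch i w) l) 0 / D -
            deriv (T.EE w l) (r / 2) / D * (r * s / (2 * l)) * (1 - s * r * T.uu w l 0 / l))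
          + (deriv (T.EE w l) (r / 2) / D * (r * s * e / 2) * (1 - s * r * T.uu w l 0 * e)
            - r * s * e / 2 * (1 - t * o * r * e)) := by
      have h8 : (r : ℂ) * s / (2 * l) = r * s * e / 2 := by rw [he]; field_simp
      have h9 : s * r * T.uu w l 0 / l = s * r * T.uu w l 0 * e := by rw [he]; field_simp
      rw [h8, h9]
      ring
    rw [h7]
    refine (norm_add_le _ _).trans ?_
    have h10 : ‖deriv (T.EE (ch i w) l) 0 / D -
            deriv (T.EE w l) (r / 2) / D * (r * s / (2 * l)) * (1 - s * r * T.uu w l 0 / l)‖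
          ≤ c * q ^ 3 := h1
    linarith
  have hr0 : (-T.oo w : ℝ) = 1 ∨ (-T.oo w : ℝ) = -1 := by
    rcases hS.oo with h | h
    · right; rw [h]
    · left; rw [h]; norm_num
  have c0 := third 0 (-T.oo w) hr0 (T.ch0 w)
  have c2 := third 2 (T.oo w) hS.oo (T.ch2 w)
  have hA := T.ch1 w
  have hoD : ∀ x : ℂ, x / (o * D) = o * (x / D) := by
    intro x
    rw [← div_div, div_eq_mul_inv x o, hoi]
    ring
  have hz1 : T.EE w l zh - T.EE w l 0 = D * (zh - t * o * zh ^ 2 * e / 2 + d1) := by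
    rw [hd1]
    field_simp
    ring
  have hz2 : T.EE w l zl - T.EE w l 0 = D * (zl - t * o * zl ^ 2 * e / 2 + d2) := by
    rw [hd2]
    field_simp
    ring
  have he2 : (1 : ℂ) / (2 * l) = e / 2 := by rw [he]; field_simp
  refine ⟨?_, ?_, ?_, ?_, ?_, ?_⟩
  · have h1 := k8_one ho hon ht heq hq1 (by linarith) hzh hzl haz hbz han hbn hd1n hd2n
    refine k8_bd hq ?_ (show 2 * c' + 3 / 8 + 3 * c' / 2 + 2 * c ≤ _ by linarith)
    refine le_trans (le_of_eq ?_) h1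
    congr 1
    have h2 : T.EE w l zh - T.EE w l zl = D * ((zh - t * o * zh ^ 2 * e / 2 + d1)
        - (zl - t * o * zl ^ 2 * e / 2 + d2)) := by
      linear_combination hz1 - hz2
    rw [hoD, h2, he2, mul_div_cancel_left₀ _ hDne]
  · have h1 := k8_two ho hon ht heq hq1 (by linarith) hzh hzl haz hbz han hbn hd1n hd2n
    refine k8_bd hq ?_ (show c' + 5 / 8 * (1 / 2 + c') + c ≤ _ by linarith)
    refine le_trans (le_of_eq ?_) h1
    congr 1
    have h2 : (T.EE w l zh + T.EE w l zl) / 2 - T.EE w l 0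
        = D * (((zh - t * o * zh ^ 2 * e / 2 + d1) + (zl - t * o * zl ^ 2 * e / 2 + d2)) / 2) := by
      linear_combination (hz1 + hz2) / 2
    have h3 : t / (8 * l) = t * e / 8 := by rw [he]; field_simp
    rw [hoD, h2, h3, mul_div_cancel_left₀ _ hDne]
    ring
  · refine k8_bd hq ?_ (show 1 + 3 * c ≤ _ by linarith)
    refine le_trans (le_of_eq ?_) c0
    have h1 : ((T.oo (ch 0 w) : ℝ) : ℂ) = -s := by
      rw [T.o0 0 w, hsdef]
      norm_num
    have h2 : T.oo (ch 0 w) * deriv (T.EE (ch 0 w) l) 0 / (o * D)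
        = (-(s * o)) * (deriv (T.EE (ch 0 w) l) 0 / D) := by
      rw [hoD, h1]
      ring
    have h3 : ((-T.oo w : ℝ) : ℂ) = -o := by rw [hodef]; push_cast; ring
    have h4 : -(s * o) * (deriv (T.EE (ch 0 w) l) 0 / D) - 1 / (2 * l) * (1 + t / l)
        = -(s * o) * (deriv (T.EE (ch 0 w) l) 0 / D - (-o) * s * e / 2 * (1 - t * o * (-o) * e)) := by
      have h5 : t / l = t * e := by rw [he]; field_simp
      rw [he2, h5]
      linear_combination (e / 2 * o ^ 2 * (1 + t * o ^ 2 * e)) * hs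
        + (e / 2 * (1 + t * e * (o ^ 2 + 1))) * ho
    have h6 : ‖-(s * o)‖ = 1 := by rw [norm_neg, norm_mul, hsn, hon, one_mul]
    rw [h2, h3]
    rw [h4, norm_mul, h6, one_mul]
  · refine k8_bd hq ?_ (show 1 + 3 * c ≤ _ by linarith)
    refine le_trans (le_of_eq ?_) c2
    have h1 : ((T.oo (ch 2 w) : ℝ) : ℂ) = s := by
      rw [T.o0 2 w, hsdef, if_neg (by decide)]
      norm_num
    have h2 : T.oo (ch 2 w) * deriv (T.EE (ch 2 w) l) 0 / (o * D)
        = (s * o) * (deriv (T.EE (ch 2 w) l) 0 / D) := by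
      rw [hoD, h1]
      ring
    have h4 : (s * o) * (deriv (T.EE (ch 2 w) l) 0 / D) - 1 / (2 * l) * (1 - t / l)
        = (s * o) * (deriv (T.EE (ch 2 w) l) 0 / D - o * s * e / 2 * (1 - t * o * o * e)) := by
      have h5 : t / l = t * e := by rw [he]; field_simp
      rw [he2, h5]
      linear_combination (e / 2 * o ^ 2 * (1 - t * o ^ 2 * e)) * hs
        + (e / 2 * (1 - t * e * (o ^ 2 + 1))) * ho
    have h6 : ‖s * o‖ = 1 := by rw [norm_mul, hsn, hon, one_mul]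
    rw [h2]
    rw [h4, norm_mul, h6, one_mul]
  · have h0 := hA.d1 l hl
    have hE : T.EE (ch 1 w) l = fun z => T.EE w l (T.zz 1 w l z) := by
      rw [T.E0 1 w]
    rw [← hE] at h0
    have hc3 : c / ‖l‖ ^ 3 ≤ (10 * c + 10 * c' + 10) / ‖l‖ ^ 3 := by
      gcongr
      linarith
    refine le_trans (le_of_eq ?_) (h0.trans hc3)
    have h1 : ((T.oo (ch 1 w) : ℝ) : ℂ) = -o := by
      rw [T.o0 1 w, hodef]
      norm_num
    have h2 : T.oo (ch 1 w) * deriv (T.EE (ch 1 w) l) 0 / (o * D) - 1 / l ^ 2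
        = -(deriv (T.EE (ch 1 w) l) 0 / D + 1 / l ^ 2) := by
      rw [hoD, h1]
      linear_combination (-(deriv (T.EE (ch 1 w) l) 0 / D)) * ho
    rw [h2, norm_neg]
  · have hE : T.EE (ch 1 w) l = fun z => T.EE w l (T.zz 1 w l z) := by
      rw [T.E0 1 w]
    have hE0 : T.EE (ch 1 w) l 0 = T.EE w l (T.zz 1 w l 0) := by rw [hE]
    have hz := hA.z2 l 0 ⟨hl, by simp⟩
    have hza := hA.z1 l 0 ⟨hl, by simp⟩
    have hu := hS.u1 l 0 ⟨hl, by simp⟩
    have hc2 : c / ‖l‖ ^ 2 = c * q ^ 2 := by rw [hq, inv_pow, div_eq_mul_inv]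
    have hc1 : c / ‖l‖ = c * q := by rw [hq, div_eq_mul_inv]
    have hc4 : 4 / ‖l‖ = 4 * q := by rw [hq, div_eq_mul_inv]
    rw [hc4] at hz
    rw [hc2] at hza
    rw [hc1] at hu
    set z := T.zz 1 w l 0 with hzdef
    have hz1' : ‖z‖ ≤ 1 := by linarith
    have hδ : ‖(T.EE w l z - T.EE w l 0) / D - (z - t * o * z ^ 2 * e / 2)‖ ≤ c * q ^ 2 := by
      refine (key z (by linarith)).trans ?_
      nlinarith
    have h6 := k8_six (o := o) (s := s) (t := t) (e := e) (z := z) (u := T.uu w l 0)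
      (a := z - s * T.uu w l 0 / l) (d := T.uu w l 0 - t * s * o / 2)
      (δ := (T.EE w l z - T.EE w l 0) / D - (z - t * o * z ^ 2 * e / 2)) (c := c) ho hs hon hsn ht heq
      hq1 hz (by rw [he]; field_simp; ring) hza (by ring) hu hδ
    refine k8_bd hq ?_ (show 8 + 3 * c ≤ _ by linarith)
    refine le_trans (le_of_eq ?_) h6
    congr 1
    have h3 : t / (2 * l) = t * e / 2 := by rw [he]; field_simp
    rw [hE0, hoD, h3]
    ring

end Pool.Agent.Helper36.CV
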